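import Pool.Agent.N245.DS.St
import Pool.Agent.N645.SR.Cap
import Pool.Agent.Y291.DB.Count

set_option autoImplicit false

/-!
# Project DS, step MODES: Fourier modes of eigenfunctions of a twisted torus

The first theorem is adapted from `Pool/Agent/N163/SR/Cyle.lean` (helper163).
-/

open MeasureTheory Set Real

open scoped ComplexConjugate

namespace Pool.Agent.N434.DSM

open Pool.Agent.N245.DS (S_MODES)
open Pool.Agent.Y291.DB (Sol um ek um_d1 um_d2 inversion Eigen bounded_of_per)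

/-- The derivatives of a `C²` solution. -/
theorem sol_of (f : ℝ → ℝ) (L α lam : ℝ) (ψ : ℝ × ℝ → ℝ) (hc : Continuous f)
    (h : Eigen (fun p => f p.1) L α lam ψ) :
    ∃ φx φxx φy φyy : ℝ → ℝ → ℝ, Sol (fun x => lam * f x) (fun x y => ψ (x, y)) φx φxx φy φyy := by
  have hs := h.smooth
  have heq := h.eq
  have key : ∀ (g : ℝ × ℝ → ℝ) (v : ℝ × ℝ), ContDiff ℝ 1 g → Continuous fun p => fderiv ℝ g p v :=
    fun g v hg => (hg.continuous_fderiv one_ne_zero).clm_apply continuous_const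
  have key2 : ∀ v : ℝ × ℝ, ContDiff ℝ 1 fun p => fderiv ℝ ψ p v := fun v =>
    (hs.fderiv_right (m := 1) (by norm_num)).clm_apply contDiff_const
  have dX : ∀ (g : ℝ × ℝ → ℝ), Differentiable ℝ g → ∀ x y : ℝ,
      HasDerivAt (fun t => g (t, y)) (fderiv ℝ g (x, y) (1, 0)) x := by
    intro g hg x y
    have h1 : HasDerivAt (fun t : ℝ => ((t, y) : ℝ × ℝ)) (1, 0) x :=
      (hasDerivAt_id x).prodMk (hasDerivAt_const x y)
    exact (hg (x, y)).hasFDerivAt.comp_hasDerivAt x h1
  have dY : ∀ (g : ℝ × ℝ → ℝ), Differentiable ℝ g → ∀ x y : ℝ,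
      HasDerivAt (fun t => g (x, t)) (fderiv ℝ g (x, y) (0, 1)) y := by
    intro g hg x y
    have h1 : HasDerivAt (fun t : ℝ => ((x, t) : ℝ × ℝ)) (0, 1) y :=
      (hasDerivAt_const y x).prodMk (hasDerivAt_id y)
    exact (hg (x, y)).hasFDerivAt.comp_hasDerivAt y h1
  have hd0 : Differentiable ℝ ψ := hs.differentiable two_ne_zero
  have hd1 : ∀ v, Differentiable ℝ fun p => fderiv ℝ ψ p v := fun v =>
    (key2 v).differentiable one_ne_zero
  refine ⟨fun x y => fderiv ℝ ψ (x, y) (1, 0),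
    fun x y => fderiv ℝ (fun p => fderiv ℝ ψ p (1, 0)) (x, y) (1, 0),
    fun x y => fderiv ℝ ψ (x, y) (0, 1),
    fun x y => fderiv ℝ (fun p => fderiv ℝ ψ p (0, 1)) (x, y) (0, 1), ?_⟩
  refine ⟨continuous_const.mul hc, ?_, ?_, ?_, ?_, ?_, ?_, ?_, ?_, ?_, ?_⟩
  · exact hs.continuous
  · exact key ψ (1, 0) (hs.of_le (by norm_num))
  · exact key _ (1, 0) (key2 (1, 0))
  · exact key ψ (0, 1) (hs.of_le (by norm_num))
  · exact key _ (0, 1) (key2 (0, 1))
  · exact fun x y => dX ψ hd0 x y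
  · exact fun x y => dX _ (hd1 (1, 0)) x y
  · exact fun x y => dY ψ hd0 x y
  · exact fun x y => dY _ (hd1 (0, 1)) x y
  · intro x y
    have h1 := heq (x, y)
    have e1 : iteratedDeriv 2 (fun t => ψ (t, y)) x =
        fderiv ℝ (fun p => fderiv ℝ ψ p (1, 0)) (x, y) (1, 0) := by
      rw [iteratedDeriv_succ, iteratedDeriv_one]
      have h2 : deriv (fun t => ψ (t, y)) = fun t => fderiv ℝ ψ (t, y) (1, 0) :=
        funext fun t => (dX ψ hd0 t y).deriv
      rw [h2]
      exact (dX _ (hd1 (1, 0)) x y).deriv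
    have e2 : iteratedDeriv 2 (fun θ => ψ (x, θ)) y =
        fderiv ℝ (fun p => fderiv ℝ ψ p (0, 1)) (x, y) (0, 1) := by
      rw [iteratedDeriv_succ, iteratedDeriv_one]
      have h2 : deriv (fun θ => ψ (x, θ)) = fun t => fderiv ℝ ψ (x, t) (0, 1) :=
        funext fun t => (dY ψ hd0 x t).deriv
      rw [h2]
      exact (dY _ (hd1 (0, 1)) x y).deriv
    simp only at h1
    rw [e1, e2] at h1
    show fderiv ℝ (fun p => fderiv ℝ ψ p (1, 0)) (x, y) (1, 0) +
      fderiv ℝ (fun p => fderiv ℝ ψ p (0, 1)) (x, y) (0, 1) = -(lam * f x * ψ (x, y))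
    linarith

theorem um_neg (φ : ℝ → ℝ → ℝ) (k : ℤ) (x : ℝ) : um φ (-k) x = conj (um φ k x) := by
  unfold um
  rw [map_mul, Complex.conj_ofReal]
  congr 1
  rw [← intervalIntegral.intervalIntegral_conj]
  refine intervalIntegral.integral_congr fun y _ => ?_
  simp only [map_mul, Complex.conj_ofReal]
  congr 1
  unfold ek
  rw [← Complex.exp_conj]
  congr 1
  simp only [map_neg, map_mul, Complex.conj_I, Complex.conj_ofReal, map_intCast]
  push_cast
  ring

theorem even_sum (g : ℤ → ℝ) (hg : ∀ k, g (-k) = g k) (K : ℕ) :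
    ∑ k ∈ Finset.Icc (-(K : ℤ)) K, g k =
      ∑ k ∈ Finset.range (K + 1), (if k = 0 then 1 else 2) * g (k : ℕ) := by
  induction K with
  | zero => simp
  | succ K ih =>
    have h1 : Finset.Icc (-((K + 1 : ℕ) : ℤ)) ((K + 1 : ℕ) : ℤ) =
        insert (-((K + 1 : ℕ) : ℤ)) (insert ((K + 1 : ℕ) : ℤ) (Finset.Icc (-(K : ℤ)) K)) := by
      ext k
      simp only [Finset.mem_Icc, Finset.mem_insert]
      push_cast
      omega
    rw [h1, Finset.sum_insert (by
      simp only [Finset.mem_Icc, Finset.mem_insert]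
      push_cast
      omega), Finset.sum_insert (by
      simp only [Finset.mem_Icc]
      push_cast
      omega), ih, Finset.sum_range_succ _ (K + 1), hg, if_neg (Nat.succ_ne_zero K)]
    ring

theorem modes : S_MODES := by
  intro f L α lam F φ hL hc hper hpos hF hE
  obtain ⟨φx, φxx, φy, φyy, hS⟩ := sol_of f L α lam φ hc hE
  have hlam := hE.pos
  have hpery : ∀ x y : ℝ, (fun x y => φ (x, y)) x (y + 2 * π) = (fun x y => φ (x, y)) x y :=
    fun x y => hE.pery (x, y)
  obtain ⟨B, -, hB⟩ := bounded_of_per hL hE.smooth.continuous hE.perx hE.pery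
  have hF0 : 0 < F := (hpos 0).trans_le (hF 0)
  have hQ : ∀ x, (fun x => lam * f x) x ≤ lam * F := fun x =>
    mul_le_mul_of_nonneg_left (hF x) hlam.le
  have hzero := Pool.Agent.N645.SR.MODE (fun x => lam * f x) (fun x y => φ (x, y)) φx φxx φy φyy
    (lam * F) hS hpery ⟨B, fun x y => hB (x, y)⟩ hQ
  obtain ⟨K, hK⟩ : ∃ K : ℕ, K = ⌊Real.sqrt (lam * F)⌋₊ := ⟨_, rfl⟩
  have hlF : 0 ≤ lam * F := by positivity
  have hK1 : (K : ℝ) ^ 2 ≤ lam * F := by
    have h1 : (K : ℝ) ≤ Real.sqrt (lam * F) := by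
      rw [hK]; exact Nat.floor_le (Real.sqrt_nonneg _)
    calc (K : ℝ) ^ 2 ≤ (Real.sqrt (lam * F)) ^ 2 := by gcongr
      _ = lam * F := Real.sq_sqrt hlF
  have hK2 : ∀ k : ℤ, (K : ℤ) < |k| → lam * F < (k : ℝ) ^ 2 := by
    intro k hk
    have h1 : Real.sqrt (lam * F) < (K : ℝ) + 1 := by
      rw [hK]; exact Nat.lt_floor_add_one _
    have h2 : (K : ℝ) + 1 ≤ |(k : ℝ)| := by
      have : (K : ℤ) + 1 ≤ |k| := hk
      exact_mod_cast this
    have h3 : Real.sqrt (lam * F) < |(k : ℝ)| := by linarith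
    have h4 := (Real.sqrt_lt' ((Real.sqrt_nonneg _).trans_lt h3)).1 h3
    rwa [sq_abs] at h4
  have hre : ∀ (g : ℝ → ℂ) (g' : ℂ) (x : ℝ), HasDerivAt g g' x →
      HasDerivAt (fun t => (g t).re) g'.re x ∧ HasDerivAt (fun t => (g t).im) g'.im x := by
    intro g g' x hg
    exact ⟨Complex.reCLM.hasFDerivAt.comp_hasDerivAt x hg,
      Complex.imCLM.hasFDerivAt.comp_hasDerivAt x hg⟩
  obtain ⟨c, hcd⟩ : ∃ c : ℕ → ℝ, c = fun k => if k = 0 then 1 else 2 := ⟨_, rfl⟩
  refine ⟨K, fun k x => c k * (um (fun x y => φ (x, y)) k x).re,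
    fun k x => c k * (um φx k x).re, fun k x => -(c k) * (um (fun x y => φ (x, y)) k x).im,
    fun k x => -(c k) * (um φx k x).im, hK1, ?_, ?_, ?_, ?_, ?_⟩
  · intro k x
    exact (hre _ _ _ (um_d1 hS hpery k x)).1.const_mul (c k)
  · intro k x
    refine ((hre _ _ _ (um_d2 hS hpery k x)).1.const_mul (c k)).congr_deriv ?_
    rw [Complex.re_ofReal_mul]
    push_cast
    ring
  · intro k x
    exact (hre _ _ _ (um_d1 hS hpery k x)).2.const_mul (-(c k))
  · intro k x
    refine ((hre _ _ _ (um_d2 hS hpery k x)).2.const_mul (-(c k))).congr_deriv ?_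
    rw [Complex.im_ofReal_mul]
    push_cast
    ring
  · intro x y
    have h1 := inversion hS hpery x (fun k hk => hzero k (hK2 k hk) x) y
    have h2 : φ (x, y) = ∑ k ∈ Finset.Icc (-(K : ℤ)) K,
        (um (fun x y => φ (x, y)) k x * Complex.exp (k * y * Complex.I)).re := by
      have h3 := congrArg Complex.re h1
      rw [Complex.ofReal_re, Complex.re_sum] at h3
      exact h3
    have h4 : ∀ k : ℤ, (um (fun x y => φ (x, y)) k x * Complex.exp (k * y * Complex.I)).re =
        (um (fun x y => φ (x, y)) k x).re * Real.cos (k * y) -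
          (um (fun x y => φ (x, y)) k x).im * Real.sin (k * y) := by
      intro k
      have e : (k : ℂ) * y * Complex.I = (((k : ℝ) * y : ℝ) : ℂ) * Complex.I := by
        push_cast
        ring
      rw [e, Complex.mul_re, Complex.exp_ofReal_mul_I_re, Complex.exp_ofReal_mul_I_im]
    rw [h2, even_sum]
    · refine Finset.sum_congr rfl fun k _ => ?_
      rw [h4, hcd]
      simp only [Int.cast_natCast]
      ring
    · intro k
      rw [h4, h4, um_neg, Complex.conj_re, Complex.conj_im]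
      push_cast
      rw [neg_mul, Real.cos_neg, Real.sin_neg]
      ring

end Pool.Agent.N434.DSM
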